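import Pool.Agent.helper60.XP.SpecT

/-!
# Project xp: DIA, diagonal choice along the ultrafilter
-/

set_option autoImplicit false

open Complex Metric Set Filter Topology MeasureTheory
open V3S (UF)
open XP

noncomputable section

namespace XPT

theorem DIA : DIA_stmt := by
  classical
  intro S hS
  refine ⟨fun m => Nat.findGreatest (fun l => S l m) m, ?_, ?_⟩
  · rw [Filter.tendsto_atTop]
    intro l
    have h1 : ∀ᶠ m in UF, l ≤ m := V3S.UF_le (eventually_ge_atTop l)
    filter_upwards [h1, hS l] with m hm hl
    exact Nat.le_findGreatest hm hl
  · filter_upwards [hS 0] with m hm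
    exact Nat.findGreatest_spec (P := fun l => S l m) (Nat.zero_le m) hm

end XPT
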