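import Pool.Agent.helper60.XP.SpecE
import Pool.Agent.helper53.V3.FPOL

/-!
# Project xp: FRT, `B` is rational
-/

set_option autoImplicit false

open Complex Metric Set Filter Topology MeasureTheory
open V3 (En ZL)

noncomputable section

namespace XPE

/-- the numerator, with the upper bound of the degree -/
theorem FRT_num (Pf : Finset ℂ) (g : ℂ → ℂ) (a c : ℂ) (hne : Pf.Nonempty) :
    ∃ N : Polynomial ℂ, (∀ x ∉ Pf, (∑ p ∈ Pf, (1 / (x - p) ^ 2 + g p / (x - p)) + a + c * x) *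
      ∏ p ∈ Pf, (x - p) ^ 2 = N.eval x) ∧ (∀ p ∈ Pf, N.eval p ≠ 0) ∧
      N.natDegree ≤ 2 * Pf.card + 1 := by
  refine ⟨V3.FPOL_S Pf g +
    (Polynomial.C a + Polynomial.C c * Polynomial.X) * V3.FPOL_M Pf, ?_, ?_, ?_⟩
  · intro x hx
    have hxp : ∀ p ∈ Pf, x - p ≠ 0 := fun p hp h => hx (by rw [sub_eq_zero.1 h]; exact hp)
    unfold V3.FPOL_S V3.FPOL_M
    rw [add_mul, Polynomial.eval_add, Polynomial.eval_mul]
    simp only [Polynomial.eval_finsetSum, Polynomial.eval_mul, Polynomial.eval_prod,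
      Polynomial.eval_add, Polynomial.eval_one, Polynomial.eval_C, Polynomial.eval_sub,
      Polynomial.eval_X, Polynomial.eval_pow]
    rw [show (∑ p ∈ Pf, (1 / (x - p) ^ 2 + g p / (x - p)) + a) * ∏ p ∈ Pf, (x - p) ^ 2 +
        c * x * ∏ p ∈ Pf, (x - p) ^ 2 =
        (∑ p ∈ Pf, (1 / (x - p) ^ 2 + g p / (x - p))) * ∏ p ∈ Pf, (x - p) ^ 2 +
        (a + c * x) * ∏ p ∈ Pf, (x - p) ^ 2 by ring]
    congr 1
    rw [Finset.sum_mul]
    refine Finset.sum_congr rfl fun p hp => ?_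
    rw [← Finset.mul_prod_erase Pf _ hp]
    have := hxp p hp
    field_simp
  · intro p hp
    unfold V3.FPOL_S V3.FPOL_M
    rw [Polynomial.eval_add, Polynomial.eval_mul]
    simp only [Polynomial.eval_finsetSum, Polynomial.eval_mul, Polynomial.eval_prod,
      Polynomial.eval_add, Polynomial.eval_one, Polynomial.eval_C, Polynomial.eval_sub,
      Polynomial.eval_X, Polynomial.eval_pow]
    have h1 : ∏ p' ∈ Pf, (p - p') ^ 2 = 0 := Finset.prod_eq_zero hp (by ring)
    have h2 : ∑ p'' ∈ Pf, (1 + g p'' * (p - p'')) * ∏ p' ∈ Pf.erase p'', (p - p') ^ 2 =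
        ∏ p' ∈ Pf.erase p, (p - p') ^ 2 := by
      rw [Finset.sum_eq_single_of_mem p hp]
      · rw [sub_self, mul_zero, add_zero, one_mul]
      · intro p'' _ hne'
        rw [Finset.prod_eq_zero (Finset.mem_erase.2 ⟨hne'.symm, hp⟩) (by ring), mul_zero]
    rw [h1, h2, mul_zero, add_zero]
    refine Finset.prod_ne_zero_iff.2 fun p' hp' => pow_ne_zero 2 ?_
    exact sub_ne_zero.2 (Finset.mem_erase.1 hp').1.symm
  · have hS := V3.FPOL_Sdeg Pf g hne
    have hL : (Polynomial.C a + Polynomial.C c * Polynomial.X).natDegree ≤ 1 := by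
      refine (Polynomial.natDegree_add_le _ _).trans ?_
      rw [Polynomial.natDegree_C]
      refine max_le (by omega) ?_
      refine (Polynomial.natDegree_C_mul_le _ _).trans ?_
      rw [Polynomial.natDegree_X]
    refine (Polynomial.natDegree_add_le _ _).trans ?_
    refine max_le (by omega) ?_
    refine Polynomial.natDegree_mul_le.trans ?_
    rw [V3.FPOL_Mdeg]
    omega

theorem FRT (hS : FSUM_stmt) : FRT_stmt := by
  intro P A g B v q θ Pf hL hPf
  obtain ⟨a, c, hac⟩ := hS P A g B v q θ Pf hL hPf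
  have h0 : (0 : ℂ) ∈ Pf := by
    have := hL.zero
    rw [hPf] at this
    exact this
  obtain ⟨N, hN1, hN2, hN3⟩ := FRT_num Pf g a c ⟨0, h0⟩
  have hN0 : N ≠ 0 := by
    rintro rfl
    exact hN2 0 h0 Polynomial.eval_zero
  refine ⟨N, hN0, hN3, hN2, ?_⟩
  intro x hx
  have hne : ∏ p ∈ Pf, (x - p) ^ 2 ≠ 0 := by
    refine Finset.prod_ne_zero_iff.2 fun p hp => pow_ne_zero 2 (sub_ne_zero.2 ?_)
    rintro rfl
    exact hx hp
  rw [eq_div_iff hne, ← hN1 x hx, hac x (by rw [hPf]; exact hx)]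

end XPE
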