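import Pool.Agent.helper60.XP.SpecN

/-!
# Project xp: N2A, the limit in case II is affine
-/

set_option autoImplicit false

open Complex Metric Set Filter Topology MeasureTheory
open V3S (UF)
open XP
open XPX (nu)

noncomputable section

namespace XPN

/-- the poles stay away from a compact set -/
theorem N2A_sep (hLPI : XPL.LPI_stmt) {n : ℕ} {C : ℝ} {D : ℕ → Dat} (hS : Seq n C D)
    {K : Set ℂ} (hK : IsCompact K) (hKP : K ⊆ (Pin D)ᶜ) :
    ∃ δ > (0 : ℝ), ∀ᶠ m in UF, ∀ x ∈ K, ∀ l, δ ≤ ‖(D m).p l - x‖ := by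
  obtain ⟨-, -, h3, -⟩ := hLPI n C D hS
  refine hK.induction_on (p := fun s => ∃ δ > (0 : ℝ), ∀ᶠ m in UF, ∀ x ∈ s, ∀ l,
    δ ≤ ‖(D m).p l - x‖) ?_ ?_ ?_ ?_
  · exact ⟨1, one_pos, Eventually.of_forall fun m x hx => absurd hx (Set.notMem_empty x)⟩
  · intro s t hst ht
    obtain ⟨δ, hδ, h⟩ := ht
    exact ⟨δ, hδ, h.mono fun m hm x hx l => hm x (hst hx) l⟩
  · intro s t hs ht
    obtain ⟨δ, hδ, h⟩ := hs
    obtain ⟨δ', hδ', h'⟩ := ht
    refine ⟨min δ δ', lt_min hδ hδ', ?_⟩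
    filter_upwards [h, h'] with m hm hm' x hx l
    rcases hx with hx | hx
    · exact (min_le_left _ _).trans (hm x hx l)
    · exact (min_le_right _ _).trans (hm' x hx l)
  · intro x hx
    obtain ⟨r, hr, h⟩ := h3 x (hKP hx)
    refine ⟨ball x (r / 2), mem_nhdsWithin_of_mem_nhds (ball_mem_nhds x (by positivity)),
      r / 2, by positivity, ?_⟩
    filter_upwards [h] with m hm y hy l
    rw [mem_ball, dist_eq_norm] at hy
    have h1 := hm l
    have h2 : ‖(D m).p l - x‖ ≤ ‖(D m).p l - y‖ + ‖y - x‖ := by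
      have h3 : (D m).p l - x = ((D m).p l - y) + (y - x) := by ring
      rw [h3]
      exact norm_add_le _ _
    linarith

/-- the points `1/2` and `-1/2` are far from the poles -/
theorem N2A_half {ι : Type} {p : ι → ℂ} {i₀ : ι} (h0 : p i₀ = 0)
    (hp : ∀ i l, i ≠ l → 1 ≤ ‖p i - p l‖) (z : ℂ) (hz : ‖z‖ = 1 / 2) (i : ι) :
    1 / 2 ≤ ‖z - p i‖ := by
  by_cases hi : i = i₀
  · rw [hi, h0, sub_zero, hz]
  · have h1 := hp i i₀ hi
    rw [h0, sub_zero] at h1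
    have h2 : ‖p i‖ ≤ ‖z - p i‖ + ‖z‖ := by
      have h3 : p i = z - (z - p i) := by ring
      calc ‖p i‖ = ‖z - (z - p i)‖ := by rw [← h3]
        _ ≤ ‖z‖ + ‖z - p i‖ := norm_sub_le _ _
        _ = ‖z - p i‖ + ‖z‖ := add_comm _ _
    rw [hz] at h2
    linarith

theorem N2A (hNA1 : NA1_stmt) (hNAF : NAF_stmt) (hTUL : V3.TUL_stmt) (hLPI : XPL.LPI_stmt) :
    N2A_stmt := by
  intro n C D hS hnu hs
  have hNB : UF.NeBot := by
    unfold V3S.UF
    infer_instance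
  obtain ⟨A, -, hgood⟩ := hS.good
  have hC : 0 ≤ C := zero_le_one.trans (hgood 0).C1
  have hnu1 : ∀ m, 1 ≤ nu (D m) := by
    intro m
    unfold nu
    linarith [norm_nonneg ((D m).Bb (1 / 2)), norm_nonneg ((D m).Bb (-1 / 2))]
  have hs0 : ∀ m, 0 ≤ (D m).s := by
    intro m
    rw [hs m]
    exact inv_nonneg.2 (zero_le_one.trans (hnu1 m))
  have hsnu : ∀ m, (D m).s * nu (D m) = 1 := by
    intro m
    rw [hs m]
    exact inv_mul_cancel₀ (by linarith [hnu1 m])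
  have hslim : Tendsto (fun m => (D m).s) UF (𝓝 0) := by
    have h1 : Tendsto (fun m => (nu (D m))⁻¹) UF (𝓝 0) := hnu.inv_tendsto_atTop
    exact h1.congr fun m => (hs m).symm
  have hnorm : ∀ (m : ℕ) (z : ℂ), ‖((D m).s : ℂ) * z‖ = (D m).s * ‖z‖ := by
    intro m z
    rw [norm_mul, Complex.norm_real, Real.norm_of_nonneg (hs0 m)]
  have hP : ∀ m, ‖((D m).s : ℂ) * (D m).Bb (1 / 2)‖ ≤ 1 := by
    intro m
    rw [hnorm, ← hsnu m]
    refine mul_le_mul_of_nonneg_left ?_ (hs0 m)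
    unfold nu
    linarith [norm_nonneg ((D m).Bb (1 / 2)), norm_nonneg ((D m).Bb (-1 / 2))]
  have hQ : ∀ m, ‖((D m).s : ℂ) * (D m).Bb (-1 / 2)‖ ≤ 1 := by
    intro m
    rw [hnorm, ← hsnu m]
    refine mul_le_mul_of_nonneg_left ?_ (hs0 m)
    unfold nu
    linarith [norm_nonneg ((D m).Bb (1 / 2)), norm_nonneg ((D m).Bb (-1 / 2))]
  obtain ⟨u, -, hu⟩ := hTUL (hyperfilter ℕ) (fun m => ((D m).s : ℂ) * (D m).Bb (1 / 2)) 1
    (Eventually.of_forall hP)
  obtain ⟨w, -, hw⟩ := hTUL (hyperfilter ℕ) (fun m => ((D m).s : ℂ) * (D m).Bb (-1 / 2)) 1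
    (Eventually.of_forall hQ)
  have hu' : Tendsto (fun m => ((D m).s : ℂ) * (D m).Bb (1 / 2)) UF (𝓝 u) := hu
  have hw' : Tendsto (fun m => ((D m).s : ℂ) * (D m).Bb (-1 / 2)) UF (𝓝 w) := hw
  have huw : ‖u‖ + ‖w‖ = 1 := by
    have h1 := hu'.norm.add hw'.norm
    have h2 : Tendsto (fun m => 1 - (D m).s) UF (𝓝 (1 - 0)) := hslim.const_sub 1
    rw [sub_zero] at h2
    refine tendsto_nhds_unique h1 (h2.congr fun m => ?_)
    show 1 - (D m).s = ‖((D m).s : ℂ) * (D m).Bb (1 / 2)‖ + ‖((D m).s : ℂ) * (D m).Bb (-1 / 2)‖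
    have h3 := hsnu m
    unfold nu at h3
    rw [hnorm, hnorm]
    linarith
  refine ⟨(u + w) / 2, u - w, ?_, ?_⟩
  · by_contra hcon
    rw [not_or, not_not, not_not] at hcon
    obtain ⟨c1, c2⟩ := hcon
    have hu0 : u = 0 := by linear_combination c1 + c2 / 2
    have hw0 : w = 0 := by linear_combination c1 - c2 / 2
    rw [hu0, hw0, norm_zero, add_zero] at huw
    exact zero_ne_one huw
  obtain ⟨-, -, -, hclosed, -⟩ := hLPI n C D hS
  rw [tendstoLocallyUniformlyOn_iff_forall_isCompact hclosed.isOpen_compl]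
  intro K hKP hK
  obtain ⟨δ, hδ, hsep⟩ := N2A_sep hLPI hS hK hKP
  obtain ⟨R, hR⟩ := hK.isBounded.subset_closedBall (0 : ℂ)
  set ρ : ℝ := max R 1 with hρ
  have hρ1 : 1 ≤ ρ := le_max_right _ _
  obtain ⟨K₀, hK₀, hN⟩ := hNAF C ρ hC hρ1
  have hex : ∀ m, ∃ ab : ℂ × ℂ, ∀ η : ℝ, 0 < η → η ≤ 1 → ∀ x ∈ closedBall (0 : ℂ) ρ,
      (∀ i, η ≤ ‖x - (D m).p i‖) → ‖(D m).Bb x - ab.1 - ab.2 * x‖ ≤ K₀ / η ^ 2 := by
    intro m
    obtain ⟨e1, e2, e3, e4, -, -⟩ := hNA1 n C (A m) (D m) (hgood m)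
    obtain ⟨a, b, hab⟩ := hN (ZMod (D m).k) (D m).p (fun l => (D m).sg * (D m).g l) e3 e4
    refine ⟨(a, b), fun η h1 h2 x hx h3 => ?_⟩
    rw [e1 x]
    exact hab η h1 h2 x hx h3
  choose ab hab using hex
  -- values at the two points
  have hpm : ∀ z : ℂ, ‖z‖ = 1 / 2 → ∀ m,
      ‖((D m).s : ℂ) * (D m).Bb z - ((D m).s * (ab m).1 + (D m).s * (ab m).2 * z)‖ ≤
        (D m).s * (K₀ * 4) := by
    intro z hz m
    obtain ⟨e1, e2, e3, e4, -, -⟩ := hNA1 n C (A m) (D m) (hgood m)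
    have h1 := hab m (1 / 2) (by norm_num) (by norm_num) z
      (by rw [mem_closedBall_zero_iff, hz]; linarith) (N2A_half e2 e3 z hz)
    have h2 : ((D m).s : ℂ) * (D m).Bb z - ((D m).s * (ab m).1 + (D m).s * (ab m).2 * z) =
        ((D m).s : ℂ) * ((D m).Bb z - (ab m).1 - (ab m).2 * z) := by ring
    rw [h2, hnorm]
    refine mul_le_mul_of_nonneg_left (h1.trans (le_of_eq ?_)) (hs0 m)
    ring
  have hz0 : Tendsto (fun m => (D m).s * (K₀ * 4)) UF (𝓝 0) := by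
    have h1 := hslim.mul_const (K₀ * 4)
    rwa [zero_mul] at h1
  have hlim : ∀ (z v : ℂ), ‖z‖ = 1 / 2 →
      Tendsto (fun m => ((D m).s : ℂ) * (D m).Bb z) UF (𝓝 v) →
      Tendsto (fun m => (D m).s * (ab m).1 + (D m).s * (ab m).2 * z) UF (𝓝 v) := by
    intro z v hz hv
    have h1 : Tendsto (fun m => ((D m).s : ℂ) * (D m).Bb z -
        ((D m).s * (ab m).1 + (D m).s * (ab m).2 * z)) UF (𝓝 0) :=
      squeeze_zero_norm (hpm z hz) hz0
    have h2 := hv.sub h1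
    rw [sub_zero] at h2
    refine h2.congr fun m => ?_
    ring
  have l1 := hlim (1 / 2) u (by norm_num) hu'
  have l2 := hlim (-1 / 2) w (by
    rw [norm_div, norm_neg, norm_one, Complex.norm_ofNat]) hw'
  have hα : Tendsto (fun m => ((D m).s : ℂ) * (ab m).1) UF (𝓝 ((u + w) / 2)) := by
    refine ((l1.add l2).div_const 2).congr fun m => ?_
    ring
  have hβ : Tendsto (fun m => ((D m).s : ℂ) * (ab m).2) UF (𝓝 (u - w)) := by
    refine (l1.sub l2).congr fun m => ?_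
    ring
  -- the error
  set η : ℝ := min δ 1 with hη
  have hη0 : 0 < η := lt_min hδ one_pos
  have hE : Tendsto (fun m => (D m).s * (K₀ / η ^ 2) + ‖((D m).s : ℂ) * (ab m).1 - (u + w) / 2‖ +
      ‖((D m).s : ℂ) * (ab m).2 - (u - w)‖ * ρ) UF (𝓝 0) := by
    have h1 := hslim.mul_const (K₀ / η ^ 2)
    rw [zero_mul] at h1
    have h2 : Tendsto (fun m => ‖((D m).s : ℂ) * (ab m).1 - (u + w) / 2‖) UF (𝓝 0) := by
      have := (hα.sub_const ((u + w) / 2)).norm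
      rwa [sub_self, norm_zero] at this
    have h3 : Tendsto (fun m => ‖((D m).s : ℂ) * (ab m).2 - (u - w)‖ * ρ) UF (𝓝 0) := by
      have := ((hβ.sub_const (u - w)).norm).mul_const ρ
      rwa [sub_self, norm_zero, zero_mul] at this
    have h4 := (h1.add h2).add h3
    rwa [add_zero, add_zero] at h4
  rw [Metric.tendstoUniformlyOn_iff]
  intro ε hε
  filter_upwards [hsep, hE.eventually (gt_mem_nhds hε)] with m hm hEm x hx
  have hxρ : ‖x‖ ≤ ρ := by
    have := hR hx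
    rw [mem_closedBall_zero_iff] at this
    exact this.trans (le_max_left _ _)
  have h1 := hab m η hη0 (min_le_right _ _) x (by rw [mem_closedBall_zero_iff]; exact hxρ)
    (fun i => by
      rw [norm_sub_rev]
      exact (min_le_left _ _).trans (hm x hx i))
  rw [dist_comm, dist_eq_norm]
  have h2 : ((D m).s : ℂ) * (D m).Bb x - ((u + w) / 2 + (u - w) * x) =
      ((D m).s : ℂ) * ((D m).Bb x - (ab m).1 - (ab m).2 * x) +
        (((D m).s : ℂ) * (ab m).1 - (u + w) / 2) +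
        (((D m).s : ℂ) * (ab m).2 - (u - w)) * x := by ring
  rw [h2]
  refine lt_of_le_of_lt ?_ hEm
  refine (norm_add₃_le).trans ?_
  rw [hnorm, norm_mul]
  refine add_le_add (add_le_add ?_ le_rfl) ?_
  · exact mul_le_mul_of_nonneg_left h1 (hs0 m)
  · exact mul_le_mul_of_nonneg_left hxρ (norm_nonneg _)

end XPN
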