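import Pool.Agent.helper54.XP.SpecG
import Pool.Agent.helper45.V3.GZF

/-! # Project xp: GZF, contradiction in case (Z) -/

set_option autoImplicit false

open Complex Metric Set Filter Topology MeasureTheory XP
open V3S (UF GZF_sum GZF_K GZF_exp)
open V3 (chi)

noncomputable section

namespace XPG

theorem GZF (hGLB : GLB_stmt) (hGZC : GZC_stmt) (hGZP : GZP_stmt) (hGZX : V3S.GZX_stmt)
    (hGPO : GPO_stmt) (hCHI : V3.CHI_stmt) (hGBA : GBA_stmt) (hGFK : GFK_stmt) : GZF_stmt := by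
  intro n C C' C'' D A t c' hS hL hs1 hA ht hPin hA1 hc' hvin hvB
  obtain ⟨g1, -⟩ := hGLB n C C' C'' D hS hL
  have htP : t ∈ Pin D := by
    rw [hPin]; exact ⟨1, by simp⟩
  obtain ⟨l, hl⟩ := g1 t htP
  have hAt := hA1 t htP
  obtain ⟨K, hK, hKsub, hKmem⟩ := GZF_K t ht
  have hKPin : K ⊆ (Pin D)ᶜ := by rw [hPin]; exact hKsub
  set x₀ : ℂ := t * (((1 : ℝ) : ℂ) * I) with hx₀
  have htn : 0 < ‖t‖ := norm_pos_iff.2 ht
  have hvne : ∀ x ∈ K, vin D x ≠ 0 := by
    intro x hx h0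
    have := hvB x (hKPin hx)
    rw [h0] at this
    norm_num at this
  have hvc : Continuous (vin D) := hL.vdiff.continuous
  have hvdc : Continuous (deriv (vin D)) :=
    ((hL.vdiff.contDiff (n := 1)).continuous_deriv le_rfl)
  have hg1c : ContinuousOn (fun x => 1 / vin D x) K :=
    continuousOn_const.div hvc.continuousOn hvne
  have hg2c : ContinuousOn (fun x => deriv (vin D) x / vin D x) K :=
    hvdc.continuousOn.div hvc.continuousOn hvne
  obtain ⟨M1, hM1⟩ := hK.exists_bound_of_continuousOn hg1c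
  obtain ⟨M2, hM2⟩ := hK.exists_bound_of_continuousOn hg2c
  set M : ℝ := max (max M1 M2) 0 with hMdef
  have hM0 : 0 ≤ M := le_max_right _ _
  have hM1' : ∀ x ∈ K, ‖1 / vin D x‖ ≤ M := fun x hx =>
    (hM1 x hx).trans ((le_max_left _ _).trans (le_max_left _ _))
  have hM2' : ∀ x ∈ K, ‖deriv (vin D) x / vin D x‖ ≤ M := fun x hx =>
    (hM2 x hx).trans ((le_max_right _ _).trans (le_max_left _ _))
  set W : ℝ := 2 * ‖t‖ + 2 * M + 3 with hW
  have hWpos : 0 < W := by positivity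
  set ε : ℝ := min (1 / 2) (1 / (10 * W)) with hεdef
  have hεpos : 0 < ε := by
    rw [hεdef]; exact lt_min (by norm_num) (by positivity)
  have hε1 : ε ≤ 1 / 2 := min_le_left _ _
  have hεW : ε * W ≤ 1 / 10 := by
    have : ε ≤ 1 / (10 * W) := min_le_right _ _
    calc ε * W ≤ 1 / (10 * W) * W := by gcongr
      _ = 1 / 10 := by field_simp
  -- uniform continuity
  obtain ⟨δ1, hδ1, hu1⟩ := Metric.uniformContinuousOn_iff.1
    (hK.uniformContinuousOn_of_continuous hg1c) ε hεpos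
  obtain ⟨δ2, hδ2, hu2⟩ := Metric.uniformContinuousOn_iff.1
    (hK.uniformContinuousOn_of_continuous hg2c) ε hεpos
  set η : ℝ := min (min (δ1 / 2) (δ2 / 2)) (min ε (‖t‖ / 2)) with hηdef
  have hηpos : 0 < η := by
    rw [hηdef]
    exact lt_min (lt_min (by positivity) (by positivity)) (lt_min hεpos (by positivity))
  have hη1 : η < δ1 := lt_of_le_of_lt ((min_le_left _ _).trans (min_le_left _ _)) (by linarith)
  have hη2 : η < δ2 := lt_of_le_of_lt ((min_le_left _ _).trans (min_le_right _ _)) (by linarith)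
  have hηε : η ≤ ε := (min_le_right _ _).trans (min_le_left _ _)
  have hηt : η ≤ ‖t‖ / 2 := (min_le_right _ _).trans (min_le_right _ _)
  -- eventual facts
  have hρ : 0 < ‖x₀‖ + 1 := by positivity
  have hx0b : x₀ ∈ ball (0 : ℂ) (‖x₀‖ + 1) := by
    rw [mem_ball_zero_iff]; linarith
  have E1 := hA.unif t htP l hl (‖x₀‖ + 1) hρ η hηpos
  have E2 := (hGFK n C C' C'' D hS hL (‖x₀‖ + 1) hρ).2 η hηpos
  have E3 := hGZP n C C' C'' D hS hL hs1 hvB K hK hKPin ε hεpos
  have hlam : Tendsto (fun m => (D m).lam) UF (𝓝 0) := hL.lam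
  have hlamne : ∀ m, (D m).lam ≠ 0 := by
    intro m h0
    have := (hL.ga m).lam0
    rw [h0] at this
    simp at this
  have E4 : ∀ᶠ m in UF, ‖(Complex.exp (D m).lam - 1) / (D m).lam - 1‖ < 1 / 10 := by
    have := (Metric.tendsto_nhds.1 (GZF_exp _ hlam hlamne)) (1 / 10) (by norm_num)
    simpa [dist_eq_norm] using this
  obtain ⟨m, e1, e2, e3, e4⟩ := (E1.and (E2.and (E3.and E4))).exists
  have hG : OK n C (D m) := hS.ok m
  have hk2 : 2 ≤ (D m).k := by
    obtain ⟨⟨Am, hAm⟩, -⟩ := hG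
    exact hAm.hk
  obtain ⟨b1, b2, b3, b4, b5, b6, b7, b8, b9, b10, b11, b12, b13, b14, b15, b16⟩ :=
    hGBA n C (D m) hG
  have hexp : Complex.exp (D m).lam ≠ 1 := by
    intro h
    have h1 := congrArg norm h
    rw [Complex.norm_exp, norm_one, Real.exp_eq_one_iff] at h1
    exact (hL.ga m).lam0.ne' h1
  obtain ⟨Fp, Vp, Qp, p1, p2, p3, p4, p5⟩ := hGPO n C (D m) hG hexp
  obtain ⟨γ, q, hγ, hq, c1, c2⟩ := hGZC n C (D m) hG x₀ (l m)
  set x₁ := (D m).F (l m).val x₀ with hx₁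
  set y₀ := (D m).F (D m).k x₀ with hy₀
  have hx1t : ‖x₁ - x₀ - t‖ ≤ η := by
    have := (e1 x₀ hx0b).1
    rw [hAt, one_mul] at this
    calc ‖x₁ - x₀ - t‖ = ‖x₁ - (t + x₀)‖ := by congr 1; ring
      _ ≤ η := this
  have hy0 : ‖x₀ - y₀‖ ≤ η := by
    rw [norm_sub_rev]; exact (e2 x₀ hx0b).1
  have hK1 : ∀ s ∈ Icc (0 : ℝ) 1, x₀ + s * (x₁ - x₀) ∈ K := by
    intro s hs
    refine hKmem _ s hs ?_
    have : x₀ + s * (x₁ - x₀) - (x₀ + s * t) = s * (x₁ - x₀ - t) := by ring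
    rw [this, norm_mul, Complex.norm_real, Real.norm_of_nonneg hs.1]
    calc s * ‖x₁ - x₀ - t‖ ≤ 1 * η := mul_le_mul hs.2 hx1t (norm_nonneg _) zero_le_one
      _ ≤ ‖t‖ / 2 := by linarith
  have hK3 : ∀ s ∈ Icc (0 : ℝ) 1, x₀ + s * t ∈ K := by
    intro s hs
    refine hKmem _ s hs ?_
    rw [sub_self, norm_zero]; positivity
  have hK2 : ∀ s ∈ Icc (0 : ℝ) 1, y₀ + s * (x₀ - y₀) ∈ K := by
    intro s hs
    refine hKmem _ 0 ⟨le_rfl, zero_le_one⟩ ?_
    have : y₀ + s * (x₀ - y₀) - (x₀ + ((0 : ℝ) : ℂ) * t) = ((s - 1 : ℝ) : ℂ) * (x₀ - y₀) := by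
      push_cast; ring
    rw [this, norm_mul, Complex.norm_real, Real.norm_eq_abs]
    have hs1 : |s - 1| ≤ 1 := by
      rw [abs_le]; exact ⟨by linarith [hs.1], by linarith [hs.2]⟩
    calc |s - 1| * ‖x₀ - y₀‖ ≤ 1 * η := mul_le_mul hs1 hy0 (norm_nonneg _) zero_le_one
      _ ≤ ‖t‖ / 2 := by linarith
  have hx0K : x₀ ∈ K := by
    have := hK3 0 ⟨le_rfl, zero_le_one⟩
    simpa using this
  have hdist : ∀ s ∈ Icc (0 : ℝ) 1, dist (x₀ + s * (x₁ - x₀)) (x₀ + s * t) ≤ η := by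
    intro s hs
    rw [dist_eq_norm]
    have : x₀ + s * (x₁ - x₀) - (x₀ + s * t) = s * (x₁ - x₀ - t) := by ring
    rw [this, norm_mul, Complex.norm_real, Real.norm_of_nonneg hs.1]
    calc s * ‖x₁ - x₀ - t‖ ≤ 1 * η := mul_le_mul hs.2 hx1t (norm_nonneg _) zero_le_one
      _ = η := one_mul _
  -- polynomials
  have hvV : (D m).v = fun x => Vp.eval x := funext p1
  have hdvV : ∀ x, deriv (D m).v x = Vp.derivative.eval x := by
    intro x; rw [hvV]; exact Vp.deriv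
  have hFd : ∀ j, Continuous (deriv ((D m).F j)) := by
    intro j
    obtain ⟨Q, hQ⟩ := b8 j
    have : (D m).F j = fun x => Q.eval x := funext hQ
    rw [this]
    have h2 : deriv (fun x => Q.eval x) = fun x => Q.derivative.eval x := by
      funext x; exact Q.deriv
    rw [h2]
    exact Q.derivative.continuous
  have hFc : ∀ j, Continuous ((D m).F j) := by
    intro j
    obtain ⟨Q, hQ⟩ := b8 j
    have : (D m).F j = fun x => Q.eval x := funext hQ
    rw [this]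
    exact Q.continuous
  have hcurve : ∀ j < 2 * (D m).k, ∀ s ∈ Icc (0 : ℝ) 1, ∃ i ≤ (D m).k, ∃ x ∈ K,
      γ j s = (D m).F i x := by
    intro j hj s hs
    rcases Nat.even_or_odd' j with ⟨i, hi | hi⟩
    · have hi' : i < (D m).k := by omega
      refine ⟨q i, (hq i).le, _, hK1 s hs, ?_⟩
      rw [hi]; exact c1 i hi' s
    · have hi' : i < (D m).k := by omega
      rcases c2 i hi' with h | h
      · refine ⟨q (i + 1), (hq _).le, x₀, hx0K, ?_⟩
        rw [hi]; exact h s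
      · refine ⟨q (i + 1), (hq _).le, _, hK2 s hs, ?_⟩
        rw [hi]; exact h s
  have hchain : ∀ j < 2 * (D m).k, ∀ s ∈ Icc (0 : ℝ) 1,
      ‖Fp.eval (γ j s) - 1‖ ≤ 1 / 2 ∧ Vp.eval (γ j s) ≠ 0 := by
    intro j hj s hs
    obtain ⟨i, hi, x, hx, hjx⟩ := hcurve j hj s hs
    obtain ⟨f1, f2, f3, -, -⟩ := e3 i hi x hx
    rw [hjx, ← p1, p3 _ f1]
    exact ⟨f3.trans hε1, f2⟩
  have hCH := hCHI (2 * (D m).k) γ Fp Vp Qp (Finset.univ.image (D m).p)
    ((Complex.exp (D m).lam - 1) / (D m).lam) (fun x => (D m).v x * (D m).Bb x) hγ p2 hchain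
    (by
      intro a ha
      obtain ⟨i, -, rfl⟩ := Finset.mem_image.1 ha
      exact p4 i)
    (by
      intro a ha h0
      have h1 : ∀ i, a ≠ (D m).p i := fun i hi => ha (Finset.mem_image.2 ⟨i, Finset.mem_univ _, hi.symm⟩)
      rw [p3 a h1, p1 a, h0]
      ring)
    (by
      intro z hz
      have h1 : ∀ i, z ≠ (D m).p i := fun i hi => hz (Finset.mem_image.2 ⟨i, Finset.mem_univ _, hi.symm⟩)
      rw [Finset.sum_image (fun i _ j _ h => b13 h)]
      exact p5 z h1)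
  -- the two estimates
  have hlt : ∀ j, j < (D m).k → j ≤ (D m).k := fun j hj => hj.le
  have hVne : ∀ j < (D m).k, ∀ x ∈ K, Vp.eval ((D m).F j x) ≠ 0 := by
    intro j hj x hx
    rw [← p1]; exact (e3 j hj.le x hx).2.1
  have hwc : ∀ j < (D m).k, ContinuousOn
      (fun x => ((D m).v ((D m).F j x) * (D m).Bb ((D m).F j x)) * deriv ((D m).F j) x) K := by
    intro j hj
    have h1 : ContinuousOn (fun x => (Fp.eval ((D m).F j x) / Vp.eval ((D m).F j x)) *
        deriv ((D m).F j) x) K :=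
      (((Fp.continuous.comp (hFc j)).continuousOn.div
        (Vp.continuous.comp (hFc j)).continuousOn (hVne j hj)).mul (hFd j).continuousOn)
    refine h1.congr fun x hx => ?_
    obtain ⟨f1, f2, -⟩ := e3 j hj.le x hx
    simp only
    rw [p3 _ f1, ← p1]
    field_simp
  have hw2c : ∀ j < (D m).k, ContinuousOn
      (fun x => (Vp.derivative.eval ((D m).F j x) / Vp.eval ((D m).F j x)) *
        deriv ((D m).F j) x) K := by
    intro j hj
    exact (((Vp.derivative.continuous.comp (hFc j)).continuousOn.div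
        (Vp.continuous.comp (hFc j)).continuousOn (hVne j hj)).mul (hFd j).continuousOn)
  have S1 := GZF_sum (D m).k γ q (D m).F x₀ x₁ y₀ t K (fun x => (D m).v x * (D m).Bb x)
    (fun x => 1 / vin D x) ε M (by linarith) hεpos.le hM0 b8 hq c1 c2 hK1 hK2 hK3 hwc hg1c
    (fun j hj x hx => (e3 j hj.le x hx).2.2.2.1)
    (fun s hs => by
      have := hu1 _ (hK1 s hs) _ (hK3 s hs) (lt_of_le_of_lt (hdist s hs) hη1)
      rw [dist_eq_norm] at this
      exact this.le)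
    hM1' (hx1t.trans hηε) (hy0.trans hηε)
  have S2 := GZF_sum (D m).k γ q (D m).F x₀ x₁ y₀ t K
    (fun z => Vp.derivative.eval z / Vp.eval z)
    (fun x => deriv (vin D) x / vin D x) ε M (by linarith) hεpos.le hM0 b8 hq c1 c2 hK1 hK2 hK3
    hw2c hg2c
    (fun j hj x hx => by
      have := (e3 j hj.le x hx).2.2.2.2
      rw [hdvV, p1] at this
      exact this)
    (fun s hs => by
      have := hu2 _ (hK1 s hs) _ (hK3 s hs) (lt_of_le_of_lt (hdist s hs) hη2)
      rw [dist_eq_norm] at this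
      exact this.le)
    hM2' (hx1t.trans hηε) (hy0.trans hηε)
  obtain ⟨-, X1, X2⟩ := hGZX (vin D) t c' 1 ht hc' one_pos hvin
  have kpos : (0 : ℝ) < ((D m).k : ℝ) := by
    have : 0 < (D m).k := by omega
    exact_mod_cast this
  rw [X1, mul_zero, sub_zero] at S1
  rw [X2] at S2
  rw [hCH] at S1
  have hbound1 : ‖(Complex.exp (D m).lam - 1) / (D m).lam *
      chi (2 * (D m).k) γ (fun z => Vp.derivative.eval z / Vp.eval z)‖ ≤ (D m).k * (1 / 10) := by
    refine S1.trans ?_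
    gcongr
  have hbound2 : ‖chi (2 * (D m).k) γ (fun z => Vp.derivative.eval z / Vp.eval z) -
      (D m).k * -(2 * Real.pi * I)‖ ≤ (D m).k * (1 / 10) := by
    refine S2.trans ?_
    gcongr
  generalize chi (2 * (D m).k) γ (fun z => Vp.derivative.eval z / Vp.eval z) = X at *
  generalize (Complex.exp (D m).lam - 1) / (D m).lam = κ at *
  have hκ : 9 / 10 ≤ ‖κ‖ := by
    have h1 : ‖(1 : ℂ)‖ ≤ ‖κ‖ + ‖κ - 1‖ := by
      calc ‖(1 : ℂ)‖ = ‖κ - (κ - 1)‖ := by congr 1; ring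
        _ ≤ ‖κ‖ + ‖κ - 1‖ := norm_sub_le _ _
    rw [norm_one] at h1
    linarith
  have hX : 6 * ((D m).k : ℝ) ≤ ‖X‖ := by
    have h1 : ‖((D m).k : ℂ) * -(2 * Real.pi * I)‖ ≤ ‖X‖ + ‖X - (D m).k * -(2 * Real.pi * I)‖ := by
      calc ‖((D m).k : ℂ) * -(2 * Real.pi * I)‖
          = ‖X - (X - (D m).k * -(2 * Real.pi * I))‖ := by congr 1; ring
        _ ≤ _ := norm_sub_le _ _
    have h2 : ‖((D m).k : ℂ) * -(2 * Real.pi * I)‖ = (D m).k * (2 * Real.pi) := by
      rw [norm_mul, norm_neg, norm_mul, norm_mul, Complex.norm_natCast, Complex.norm_I,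
        Complex.norm_real, Real.norm_of_nonneg Real.pi_pos.le]
      norm_num
    have h3 := Real.pi_gt_d2
    rw [h2] at h1
    nlinarith
  rw [norm_mul] at hbound1
  have : (9 / 10) * (6 * ((D m).k : ℝ)) ≤ ‖κ‖ * ‖X‖ :=
    mul_le_mul hκ hX (by positivity) (norm_nonneg _)
  linarith

end XPG
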